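import Pool.Agent.H.MP_5c86b6_an.A

namespace Pool.Agent.Results.MP_5c86b6_an.No

open Finset

theorem result : ∃ (a b c : ℕ → ℝ) (P : ℕ → ℝ → ℝ),
    (∀ n, 0 < a n) ∧ (∀ n, 0 ≤ b n) ∧ (∀ n, 1 ≤ n → 0 < c n) ∧ a 0 + b 0 = 1 ∧
    (∀ n, 1 ≤ n → a n + b n + c n = 1) ∧
    (∀ x, P 0 x = 1) ∧ (∀ x, P 1 x = (x - b 0) / a 0) ∧
    (∀ n x, 1 ≤ n → x * P n x = a n * P (n + 1) x + b n * P n x + c n * P (n - 1) x) ∧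
    (∀ m n, ∃ g : ℕ → ℝ, (∀ k, 0 ≤ g k) ∧
      ∀ x, P m x * P n x = ∑ k ∈ Icc (Nat.dist m n) (m + n), g k * P k x) ∧
    a 0 * a 1 / (c 1 * c 2) < 2 := by
  open H.MP_5c86b6_an in
  refine ⟨aa, bb, cc, p, aa_pos, bb_nonneg, cc_pos, by simp [aa, bb], fun n _ => abc n,
    fun _ => rfl, fun x => by simp [p, aa, bb], fun n x hn => ?_, main, by norm_num [aa, cc]⟩
  obtain ⟨k, rfl⟩ := Nat.exists_eq_add_of_le' hn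
  exact H.MP_5c86b6_an.prec k x

end Pool.Agent.Results.MP_5c86b6_an.No
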